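import Pool.Agent.J4H38.GS.Stm4

/-!
# Project GS4 (helper38, MP_bc6037_nt): the functional equation of the shifted sums
-/

set_option autoImplicit false

open MeasureTheory Set Filter Topology

namespace Pool.Agent.J4H93.GS

open Pool.Agent.J4H38.GS

noncomputable section

/-- `DD a s + 1/(s - 1) = ζ(s, a) - a^{-s}` for `Re s > 1` -/
theorem right (hH : S_HUR) (a : ℝ) (ha0 : 0 ≤ a) (ha1 : a < 1) (s : ℂ) (hs : 1 < s.re) :
    DD a s + 1 / (s - 1) = HurwitzZeta.hurwitzZeta (a : UnitAddCircle) s - (a : ℂ) ^ (-s) := by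
  have h1 := HurwitzZeta.hasSum_hurwitzZeta_of_one_lt_re (a := a) ⟨ha0, ha1.le⟩ hs
  have h2 := hH a ha0 ha1 s hs
  rw [← hasSum_nat_add_iff' 1] at h1
  have h3 : HasSum (fun n : ℕ => (((n : ℝ) + 1 + a : ℝ) : ℂ) ^ (-s))
      (HurwitzZeta.hurwitzZeta (a : UnitAddCircle) s - (a : ℂ) ^ (-s)) := by
    have e1 : (fun n : ℕ => (((n : ℝ) + 1 + a : ℝ) : ℂ) ^ (-s)) =
        fun n : ℕ => 1 / (((n + 1 : ℕ) : ℂ) + (a : ℂ)) ^ s := by
      funext n
      rw [Complex.cpow_neg, one_div]
      push_cast
      rfl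
    have e2 : (a : ℂ) ^ (-s) = ∑ i ∈ Finset.range 1, 1 / ((i : ℂ) + (a : ℂ)) ^ s := by
      simp [Complex.cpow_neg]
    rw [e1, e2]
    exact h1
  exact h2.unique h3

/-- the same for `Re s > 0`, `Im s < 0` -/
theorem left (hD : S_DAN) (hH : S_HUR) (a : ℝ) (ha0 : 0 ≤ a) (ha1 : a < 1) (s : ℂ) (hs : 0 < s.re) (hs2 : s.im < 0) :
    DD a s + 1 / (s - 1) = HurwitzZeta.hurwitzZeta (a : UnitAddCircle) s - (a : ℂ) ^ (-s) := by
  set U : Set ℂ := {s : ℂ | 0 < s.re ∧ s.im < 0} with hU
  have hUo : IsOpen U := (isOpen_lt continuous_const Complex.continuous_re).inter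
    (isOpen_lt Complex.continuous_im continuous_const)
  have hUc : Convex ℝ U := (convex_halfSpace_re_gt 0).inter (convex_halfSpace_im_lt 0)
  have hne : ∀ z ∈ U, z ≠ 1 := by
    rintro z ⟨_, hz⟩ rfl
    simp at hz
  have h1 : AnalyticOnNhd ℂ (fun s => DD a s + 1 / (s - 1)) U := by
    refine DifferentiableOn.analyticOnNhd ?_ hUo
    refine ((hD a ha0 ha1).1.mono fun z hz => hz.1).add ?_
    intro z hz
    refine DifferentiableAt.differentiableWithinAt ?_
    refine (differentiableAt_const _).div (by fun_prop) (sub_ne_zero.2 (hne z hz))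
  have h2 : AnalyticOnNhd ℂ (fun s => HurwitzZeta.hurwitzZeta (a : UnitAddCircle) s - (a : ℂ) ^ (-s)) U := by
    refine DifferentiableOn.analyticOnNhd ?_ hUo
    intro z hz
    refine DifferentiableAt.differentiableWithinAt ?_
    refine (HurwitzZeta.differentiableAt_hurwitzZeta _ (hne z hz)).sub ?_
    refine DifferentiableAt.const_cpow (by fun_prop) ?_
    right
    intro h
    have : z = 0 := by simpa using h
    rw [this] at hz
    exact absurd hz.1 (by simp)
  have hz0 : (2 - Complex.I : ℂ) ∈ U := by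
    constructor <;> simp
  have h3 := h1.eqOn_of_preconnected_of_eventuallyEq h2 hUc.isPreconnected hz0 (by
    have : {s : ℂ | 1 < s.re} ∈ 𝓝 (2 - Complex.I : ℂ) := by
      refine (isOpen_lt continuous_const Complex.continuous_re).mem_nhds ?_
      simp
    filter_upwards [this] with z hz
    exact right hH a ha0 ha1 z hz)
  exact h3 ⟨hs, hs2⟩

theorem t_L1 : S_DAN → S_HUR → S_L1 := by
  intro hD hH a ha0 ha1 w hw0 hw1 hwi
  rw [left hD hH a ha0 ha1 (1 - w) (by simp; linarith) (by simp; linarith),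
    HurwitzZeta.hurwitzZeta_one_sub (a : UnitAddCircle) (s := w) ?_ ?_]
  · have hA : AA w ≠ 0 := by
      unfold AA
      refine mul_ne_zero (mul_ne_zero ?_ ?_) (Complex.exp_ne_zero _)
      · rw [Complex.cpow_ne_zero_iff_of_exponent_ne_zero]
        · have := Real.pi_ne_zero
          simp [this]
        · intro h
          have : w = 0 := by simpa using h
          rw [this] at hw0
          simp at hw0
      · refine Complex.Gamma_ne_zero_of_re_pos hw0
    have hE : Complex.exp (-(Real.pi * Complex.I * w / 2)) * Complex.exp (Real.pi * Complex.I * w) =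
        Complex.exp (Real.pi * Complex.I * w / 2) := by
      rw [← Complex.exp_add]
      congr 1
      ring
    have h9 : AA w * EE a w = AA w * (HurwitzZeta.expZeta (a : UnitAddCircle) w +
        Complex.exp (Real.pi * Complex.I * w) * HurwitzZeta.expZeta (-(a : UnitAddCircle)) w) - (a : ℂ) ^ (w - 1) := by
      unfold EE
      rw [mul_sub, mul_div_cancel₀ _ hA]
    rw [h9, neg_sub]
    congr 1
    unfold AA
    rw [show (-Real.pi * Complex.I * w / 2 : ℂ) = -(Real.pi * Complex.I * w / 2) by ring, ← hE]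
    ring
  · intro n h
    rw [h] at hw0
    have : (0 : ℝ) ≤ n := n.cast_nonneg
    simp at hw0
    linarith
  · right
    intro h
    rw [h] at hw1
    simp at hw1

end

end Pool.Agent.J4H93.GS
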